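import Pool.Agent.Lib.MP_db54ba57_co.Square

/-!
Both halves of the question are false, with one and the same pair of patterns: inserting one
interior empty row can turn bounded saturation into linear saturation, for square matrices and
for matrices with any fixed number `m₀ ≥ 12` of rows.
-/

namespace Pool.Agent.Results.MP_db54ba57_co.SquareMatrices

open Pool.Agent.Lib.MP_db54ba57_co

/-- The 8 by 8 pattern `PB` arises from the 7 by 8 pattern `PA` by inserting one interior empty
row.  The saturation function of `PA` is at most 176 for all numbers `m ≥ 12` of rows and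
`n ≥ 17` of columns, the one of `PB` is at least `n` for all `m ≥ 1` and `n`. -/
theorem result : IsInteriorInsertion PA PB ∧
    (∀ m n : ℕ, 12 ≤ m → 17 ≤ n → sat m n PA ≤ 176) ∧
    ∀ m n : ℕ, 1 ≤ m → n ≤ sat m n PB :=
  ⟨insertion_PA_PB, fun _ _ hm hn => sat_PA_le hm hn, fun _ n hm => le_sat_PB hm n⟩

end Pool.Agent.Results.MP_db54ba57_co.SquareMatrices
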